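import Pool.Agent.N659.HB.Stm8

/-!
Project SD, part PT: perturbation of the averaged resolvent by a symbol small compared with the
absorption.
-/

set_option autoImplicit false

namespace Pool.Agent.N664.SD.PT

open MeasureTheory Filter Pool.Agent.W792.LL Pool.Agent.W792.WA Pool.Agent.N659.HB
open scoped Topology ENNReal

noncomputable section

/-! ## Weakly measurable bounded families -/

/-- Bounded families of operators, measurable in the weak sense. -/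
structure WB {Ω : Type} [MeasurableSpace Ω] {d : ℕ}
    (A : Ω → (l2 (Fin d → ℤ) →L[ℂ] l2 (Fin d → ℤ))) : Prop where
  bd : ∃ C : ℝ, ∀ v, ‖A v‖ ≤ C
  ms : ∀ (u : l2 (Fin d → ℤ)) (x : Fin d → ℤ), Measurable fun v => A v u x

variable {Ω : Type} [MeasurableSpace Ω] {d : ℕ}

lemma measurable_hasSum {ι : Type} [Countable ι] {f : ι → Ω → ℂ} {g : Ω → ℂ}
    (hf : ∀ i, Measurable (f i)) (h : ∀ v, HasSum (fun i => f i v) (g v)) : Measurable g := by
  classical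
  refine measurable_of_tendsto_metrizable' (atTop : Filter (Finset ι))
    (f := fun s v => ∑ i ∈ s, f i v) (fun s => Finset.measurable_sum s fun i _ => hf i) ?_
  exact tendsto_pi_nhds.mpr fun v => h v

lemma measurable_hasSumR {ι : Type} [Countable ι] {f : ι → Ω → ℝ} {g : Ω → ℝ}
    (hf : ∀ i, Measurable (f i)) (h : ∀ v, HasSum (fun i => f i v) (g v)) : Measurable g := by
  classical
  refine measurable_of_tendsto_metrizable' (atTop : Filter (Finset ι))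
    (f := fun s v => ∑ i ∈ s, f i v) (fun s => Finset.measurable_sum s fun i _ => hf i) ?_
  exact tendsto_pi_nhds.mpr fun v => h v

lemma measurable_inner' {f g : Ω → l2 (Fin d → ℤ)} (hf : ∀ x, Measurable fun v => f v x)
    (hg : ∀ x, Measurable fun v => g v x) : Measurable fun v => inner ℂ (f v) (g v) := by
  refine measurable_hasSum (f := fun x v => inner ℂ (f v x) (g v x)) (fun x => ?_)
    fun v => lp.hasSum_inner (f v) (g v)
  have h1 := hf x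
  have h2 := hg x
  exact h1.inner h2

lemma measurable_norm' {f : Ω → l2 (Fin d → ℤ)} (hf : ∀ x, Measurable fun v => f v x) :
    Measurable fun v => ‖f v‖ := by
  have h : ∀ v, ‖f v‖ = Real.sqrt (inner ℂ (f v) (f v)).re := fun v =>
    norm_eq_sqrt_re_inner (𝕜 := ℂ) (f v)
  simp only [h]
  exact (Complex.measurable_re.comp (measurable_inner' hf hf)).sqrt

lemma inner_dl (x : Fin d → ℤ) (u : l2 (Fin d → ℤ)) : inner ℂ (dl x) u = u x := by
  unfold dl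
  rw [lp.inner_single_left]
  simp

lemma WB.adj {A : Ω → (l2 (Fin d → ℤ) →L[ℂ] l2 (Fin d → ℤ))} (hA : WB A) :
    WB fun v => ContinuousLinearMap.adjoint (A v) := by
  refine ⟨?_, ?_⟩
  · obtain ⟨C, hC⟩ := hA.bd
    exact ⟨C, fun v => by rw [LinearIsometryEquiv.norm_map]; exact hC v⟩
  · intro u x
    have h : ∀ v, ContinuousLinearMap.adjoint (A v) u x = inner ℂ (A v (dl x)) u := fun v => by
      rw [← inner_dl, ContinuousLinearMap.adjoint_inner_right]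
    simp only [h]
    exact measurable_inner' (fun y => hA.ms (dl x) y) (fun y => measurable_const)

lemma WB.mul {A B : Ω → (l2 (Fin d → ℤ) →L[ℂ] l2 (Fin d → ℤ))} (hA : WB A) (hB : WB B) :
    WB fun v => A v * B v := by
  refine ⟨?_, ?_⟩
  · obtain ⟨C, hC⟩ := hA.bd
    obtain ⟨D, hD⟩ := hB.bd
    refine ⟨C * D, fun v => (norm_mul_le _ _).trans ?_⟩
    exact mul_le_mul (hC v) (hD v) (norm_nonneg _) ((norm_nonneg _).trans (hC v))
  · intro u x
    have h : ∀ v, (A v * B v) u x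
        = inner ℂ (ContinuousLinearMap.adjoint (A v) (dl x)) (B v u) := fun v => by
      rw [ContinuousLinearMap.adjoint_inner_left, inner_dl]
      rfl
    simp only [h]
    exact measurable_inner' (fun y => hA.adj.ms (dl x) y) (fun y => hB.ms u y)

lemma WB.add {A B : Ω → (l2 (Fin d → ℤ) →L[ℂ] l2 (Fin d → ℤ))} (hA : WB A) (hB : WB B) :
    WB fun v => A v + B v := by
  refine ⟨?_, ?_⟩
  · obtain ⟨C, hC⟩ := hA.bd
    obtain ⟨D, hD⟩ := hB.bd
    exact ⟨C + D, fun v => (norm_add_le _ _).trans (add_le_add (hC v) (hD v))⟩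
  · intro u x
    exact (hA.ms u x).add (hB.ms u x)

lemma WB.sub {A B : Ω → (l2 (Fin d → ℤ) →L[ℂ] l2 (Fin d → ℤ))} (hA : WB A) (hB : WB B) :
    WB fun v => A v - B v := by
  refine ⟨?_, ?_⟩
  · obtain ⟨C, hC⟩ := hA.bd
    obtain ⟨D, hD⟩ := hB.bd
    exact ⟨C + D, fun v => (norm_sub_le _ _).trans (add_le_add (hC v) (hD v))⟩
  · intro u x
    exact (hA.ms u x).sub (hB.ms u x)

lemma WB.const (T : l2 (Fin d → ℤ) →L[ℂ] l2 (Fin d → ℤ)) : WB fun _ : Ω => T :=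
  ⟨⟨‖T‖, fun _ => le_rfl⟩, fun _ _ => measurable_const⟩

lemma WB.mnorm {A : Ω → (l2 (Fin d → ℤ) →L[ℂ] l2 (Fin d → ℤ))} (hA : WB A)
    (u : l2 (Fin d → ℤ)) : Measurable fun v => ‖A v u‖ := measurable_norm' fun x => hA.ms u x

lemma WB.minner {A : Ω → (l2 (Fin d → ℤ) →L[ℂ] l2 (Fin d → ℤ))} (hA : WB A)
    (u' u : l2 (Fin d → ℤ)) : Measurable fun v => inner ℂ u' (A v u) :=
  measurable_inner' (fun _ => measurable_const) fun x => hA.ms u x

lemma WB.int {A : Ω → (l2 (Fin d → ℤ) →L[ℂ] l2 (Fin d → ℤ))} (hA : WB A) (P : Measure Ω)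
    [IsFiniteMeasure P] (u' u : l2 (Fin d → ℤ)) : Integrable (fun v => inner ℂ u' (A v u)) P := by
  obtain ⟨C, hC⟩ := hA.bd
  refine Integrable.of_bound (hA.minner u' u).aestronglyMeasurable (‖u'‖ * (C * ‖u‖))
    (Eventually.of_forall fun v => ?_)
  refine (norm_inner_le_norm _ _).trans ?_
  refine mul_le_mul_of_nonneg_left ?_ (norm_nonneg _)
  exact ((A v).le_opNorm u).trans (mul_le_mul_of_nonneg_right (hC v) (norm_nonneg _))

/-- Cauchy-Schwarz. -/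
lemma cs (P : Measure Ω) [IsProbabilityMeasure P] (f g : Ω → ℝ) (C a b : ℝ)
    (hf : Measurable f) (hg : Measurable g) (hf0 : ∀ v, 0 ≤ f v) (hg0 : ∀ v, 0 ≤ g v)
    (hfC : ∀ v, f v ≤ C) (hgC : ∀ v, g v ≤ C) (ha : 0 ≤ a) (hb : 0 ≤ b)
    (h1 : ∫ v, f v ^ 2 ∂P ≤ a ^ 2) (h2 : ∫ v, g v ^ 2 ∂P ≤ b ^ 2) :
    ∫ v, f v * g v ∂P ≤ a * b := by
  have hfm : MemLp f (ENNReal.ofReal 2) P := by
    refine MemLp.of_bound hf.aestronglyMeasurable C (Eventually.of_forall fun v => ?_)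
    rw [Real.norm_eq_abs, abs_of_nonneg (hf0 v)]
    exact hfC v
  have hgm : MemLp g (ENNReal.ofReal 2) P := by
    refine MemLp.of_bound hg.aestronglyMeasurable C (Eventually.of_forall fun v => ?_)
    rw [Real.norm_eq_abs, abs_of_nonneg (hg0 v)]
    exact hgC v
  have hpq : (2 : ℝ).HolderConjugate 2 := by
    refine ⟨by norm_num, by norm_num, by norm_num⟩
  have h := integral_mul_le_Lp_mul_Lq_of_nonneg (μ := P) hpq
    (Eventually.of_forall hf0) (Eventually.of_forall hg0) hfm hgm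
  have e1 : ∀ v, f v ^ (2 : ℝ) = f v ^ 2 := fun v => Real.rpow_two _
  have e2 : ∀ v, g v ^ (2 : ℝ) = g v ^ 2 := fun v => Real.rpow_two _
  simp only [e1, e2] at h
  refine h.trans ?_
  have hA : (∫ v, f v ^ 2 ∂P) ^ (1 / (2 : ℝ)) ≤ a := by
    rw [← Real.sqrt_eq_rpow]
    exact (Real.sqrt_le_sqrt h1).trans (by rw [Real.sqrt_sq ha])
  have hB : (∫ v, g v ^ 2 ∂P) ^ (1 / (2 : ℝ)) ≤ b := by
    rw [← Real.sqrt_eq_rpow]
    exact (Real.sqrt_le_sqrt h2).trans (by rw [Real.sqrt_sq hb])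
  refine mul_le_mul hA hB ?_ ha
  exact Real.rpow_nonneg (integral_nonneg fun v => by positivity) _

/-- The main estimate. -/
lemma key (P : Measure Ω) [IsProbabilityMeasure P]
    (A T B : Ω → (l2 (Fin d → ℤ) →L[ℂ] l2 (Fin d → ℤ))) (hA : WB A) (hB : WB B)
    (τ a b : ℝ) (hτ : 0 ≤ τ) (hT : ∀ v, ‖T v‖ ≤ τ) (ha : 0 ≤ a) (hb : 0 ≤ b)
    (u' u : l2 (Fin d → ℤ))
    (h1 : ∫ v, ‖ContinuousLinearMap.adjoint (A v) u'‖ ^ 2 ∂P ≤ a ^ 2)
    (h2 : ∫ v, ‖B v u‖ ^ 2 ∂P ≤ b ^ 2) :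
    ‖∫ v, inner ℂ u' ((A v * T v * B v) u) ∂P‖ ≤ τ * (a * b) := by
  obtain ⟨C, hC⟩ := hA.adj.bd
  obtain ⟨D, hD⟩ := hB.bd
  have bf : ∀ v, ‖ContinuousLinearMap.adjoint (A v) u'‖ ≤ max (C * ‖u'‖) (D * ‖u‖) := fun v =>
    ((ContinuousLinearMap.adjoint (A v)).le_opNorm u').trans
      ((mul_le_mul_of_nonneg_right (hC v) (norm_nonneg _)).trans (le_max_left _ _))
  have bg : ∀ v, ‖B v u‖ ≤ max (C * ‖u'‖) (D * ‖u‖) := fun v =>
    ((B v).le_opNorm u).trans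
      ((mul_le_mul_of_nonneg_right (hD v) (norm_nonneg _)).trans (le_max_right _ _))
  have hc := cs P (fun v => ‖ContinuousLinearMap.adjoint (A v) u'‖) (fun v => ‖B v u‖)
    (max (C * ‖u'‖) (D * ‖u‖)) a b (hA.adj.mnorm u') (hB.mnorm u) (fun v => norm_nonneg _)
    (fun v => norm_nonneg _) bf bg ha hb h1 h2
  have i3 : Integrable (fun v => ‖ContinuousLinearMap.adjoint (A v) u'‖ * ‖B v u‖) P := by
    refine Integrable.of_bound ((hA.adj.mnorm u').mul (hB.mnorm u)).aestronglyMeasurable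
      (max (C * ‖u'‖) (D * ‖u‖) * max (C * ‖u'‖) (D * ‖u‖))
      (Eventually.of_forall fun v => ?_)
    rw [Real.norm_eq_abs, abs_of_nonneg (mul_nonneg (norm_nonneg _) (norm_nonneg _))]
    exact mul_le_mul (bf v) (bg v) (norm_nonneg _) ((norm_nonneg _).trans (bf v))
  have hp : ∀ v, ‖inner ℂ u' ((A v * T v * B v) u)‖
      ≤ τ * (‖ContinuousLinearMap.adjoint (A v) u'‖ * ‖B v u‖) := fun v => by
    have e : inner ℂ u' ((A v * T v * B v) u)
        = inner ℂ (ContinuousLinearMap.adjoint (A v) u') (T v (B v u)) := by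
      rw [ContinuousLinearMap.adjoint_inner_left]
      rfl
    rw [e]
    refine (norm_inner_le_norm _ _).trans ?_
    have h3 : ‖T v (B v u)‖ ≤ τ * ‖B v u‖ :=
      ((T v).le_opNorm _).trans (mul_le_mul_of_nonneg_right (hT v) (norm_nonneg _))
    calc ‖ContinuousLinearMap.adjoint (A v) u'‖ * ‖T v (B v u)‖
        ≤ ‖ContinuousLinearMap.adjoint (A v) u'‖ * (τ * ‖B v u‖) :=
          mul_le_mul_of_nonneg_left h3 (norm_nonneg _)
      _ = _ := by ring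
  refine (norm_integral_le_of_norm_le (i3.const_mul τ) (Eventually.of_forall hp)).trans ?_
  rw [integral_const_mul]
  exact mul_le_mul_of_nonneg_left hc hτ

/-- An operator is bounded by its form on finitely supported vectors. -/
lemma op_bound (T : l2 (Fin d → ℤ) →L[ℂ] l2 (Fin d → ℤ)) (u : l2 (Fin d → ℤ)) (B : ℝ) (hB : 0 ≤ B)
    (h : ∀ F : Finset (Fin d → ℤ), ‖inner ℂ (∑ x ∈ F, lp.single 2 x (T u x)) (T u)‖
      ≤ B * (‖(∑ x ∈ F, lp.single 2 x (T u x) : l2 (Fin d → ℤ))‖ * ‖u‖)) : ‖T u‖ ≤ B * ‖u‖ := by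
  have h2 : (0 : ℝ) < (2 : ℝ≥0∞).toReal := by norm_num
  refine lp.norm_le_of_forall_sum_le h2 (by positivity) fun F => ?_
  have hF := h F
  have e1 := lp.norm_sum_single (E := fun _ : Fin d → ℤ => ℂ) h2 (fun x => T u x) F
  have e2 : inner ℂ (∑ x ∈ F, lp.single 2 x (T u x)) (T u)
      = ((∑ x ∈ F, ‖T u x‖ ^ 2 : ℝ) : ℂ) := by
    rw [sum_inner]
    push_cast
    refine Finset.sum_congr rfl fun x _ => ?_
    rw [lp.inner_single_left]
    exact inner_self_eq_norm_sq_to_K (𝕜 := ℂ) (T u x)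
  simp only [ENNReal.toReal_ofNat, Real.rpow_two] at e1 ⊢
  rw [e2, ← e1, Complex.norm_real, Real.norm_eq_abs, abs_of_nonneg (by positivity)] at hF
  rw [← e1]
  set n := ‖(∑ x ∈ F, lp.single 2 x (T u x) : l2 (Fin d → ℤ))‖ with hn
  have hn0 : 0 ≤ n := norm_nonneg _
  have hle : n ≤ B * ‖u‖ := by
    rcases hn0.eq_or_lt with h0 | h0
    · rw [← h0]; positivity
    · have : n * n ≤ n * (B * ‖u‖) := by nlinarith
      exact le_of_mul_le_mul_left this h0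
  exact pow_le_pow_left₀ hn0 hle 2

/-- Diagonal operators with bounded entries. -/
lemma dia_bd (hdia : S_DIA) {Γ : Type} (c : Γ → ℂ) (K : ℝ) (hK : 0 < K) (hc : ∀ x, ‖c x‖ ≤ K) :
    (∀ (u : l2 Γ) (x : Γ), dia c u x = c x * u x) ∧ ‖dia c‖ ≤ K := by
  obtain ⟨h1, h2⟩ := hdia Γ (fun x => ((1 / K : ℝ) : ℂ) * c x) (fun x => by
    rw [norm_mul, Complex.norm_real, Real.norm_eq_abs, abs_of_pos (by positivity)]
    rw [div_mul_eq_mul_div, one_mul, div_le_one hK]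
    exact hc x)
  have hKc : (K : ℂ) ≠ 0 := by exact_mod_cast hK.ne'
  have hex : ∀ (u : l2 Γ) (x : Γ),
      ((K : ℂ) • dia (fun x => ((1 / K : ℝ) : ℂ) * c x)) u x = c x * u x := fun u x => by
    have : ((K : ℂ) • dia (fun x => ((1 / K : ℝ) : ℂ) * c x)) u x
        = (K : ℂ) * dia (fun x => ((1 / K : ℝ) : ℂ) * c x) u x := rfl
    rw [this, h1]
    push_cast
    field_simp
  have hexi : ∃ D : l2 Γ →L[ℂ] l2 Γ, ∀ u x, D u x = c x * u x := ⟨_, hex⟩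
  have hd : ∀ (u : l2 Γ) (x : Γ), dia c u x = c x * u x := by
    intro u x
    unfold dia
    rw [dif_pos hexi]
    exact Classical.choose_spec hexi u x
  refine ⟨hd, ?_⟩
  have he : dia c = (K : ℂ) • dia (fun x => ((1 / K : ℝ) : ℂ) * c x) := by
    ext u x
    rw [hd, hex]
  rw [he, norm_smul, Complex.norm_real, Real.norm_eq_abs, abs_of_pos hK]
  nlinarith

lemma wb_gr (hgr : S_GR) (d : ℕ) (w c : ℝ) (X : C(UnitAddTorus (Fin d), ℂ)) (hw : 0 ≤ w)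
    (hc : 0 < c) (hX : ∀ k, (X k).im ≤ -c) : WB fun v => gr w X v := by
  obtain ⟨h1, h2⟩ := hgr d w c X hw hc hX
  exact ⟨⟨1 / c, fun v => (h1 v).2.2⟩, h2⟩

lemma resolvent {R : Type} [Ring R] (H Y G G' : R) (h1 : H * G = 1) (h2 : G * H = 1)
    (h3 : (H + Y) * G' = 1) (h4 : G' * (H + Y) = 1) :
    G' - G = -(G * Y * G) + G * (Y * G' * Y) * G := by
  have e1 : G' + G * Y * G' = G := by
    have a1 : G * ((H + Y) * G') = G := by rw [h3, mul_one]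
    have a2 : G * ((H + Y) * G') = (G * H) * G' + G * Y * G' := by noncomm_ring
    rw [a1, h2, one_mul] at a2
    exact a2.symm
  have e2 : G' + G' * Y * G = G := by
    have a1 : (G' * (H + Y)) * G = G := by rw [h4, one_mul]
    have a2 : (G' * (H + Y)) * G = G' * (H * G) + G' * Y * G := by noncomm_ring
    rw [a1, h1, mul_one] at a2
    exact a2.symm
  have e3 : G' - G = -(G * Y * G') := by
    rw [sub_eq_iff_eq_add, neg_add_eq_sub, eq_sub_iff_add_eq]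
    exact e1
  have e4 : G' = G - G' * Y * G := by
    rw [eq_sub_iff_add_eq]
    exact e2
  rw [e3]
  calc -(G * Y * G') = -(G * Y * (G - G' * Y * G)) := by rw [← e4]
    _ = _ := by noncomm_ring

lemma split {R : Type} [Ring R] (Y G G' D : R)
    (h : G' - G = -(G * Y * G) + G * (Y * G' * Y) * G) :
    G' - G = -(D * Y * D) - G * Y * (G - D) - (G - D) * Y * G + (G - D) * Y * (G - D)
      + G * (Y * G' * Y) * G := by
  rw [h]
  noncomm_ring

lemma int5 (P : Measure Ω) (f₀ f₁ f₂ f₃ f₄ : Ω → ℂ) (h₀ : Integrable f₀ P)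
    (h₁ : Integrable f₁ P) (h₂ : Integrable f₂ P) (h₃ : Integrable f₃ P)
    (h₄ : Integrable f₄ P) :
    ∫ v, (-f₀ v - f₁ v - f₂ v + f₃ v + f₄ v) ∂P
      = -(∫ v, f₀ v ∂P) - (∫ v, f₁ v ∂P) - (∫ v, f₂ v ∂P) + (∫ v, f₃ v ∂P) + ∫ v, f₄ v ∂P := by
  have i₀ : Integrable (fun v => -f₀ v) P := h₀.neg
  have i₁ : Integrable (fun v => -f₀ v - f₁ v) P := i₀.sub h₁
  have i₂ : Integrable (fun v => -f₀ v - f₁ v - f₂ v) P := i₁.sub h₂
  have i₃ : Integrable (fun v => -f₀ v - f₁ v - f₂ v + f₃ v) P := i₂.add h₃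
  rw [integral_add i₃ h₄, integral_add i₂ h₃, integral_sub i₁ h₂, integral_sub i₀ h₁,
    integral_neg]

lemma num (C₁ C₂ y q Z Y n g : ℝ) (hC₁ : 0 ≤ C₁) (hC₂ : 0 ≤ C₂) (hy : 0 < y) (hg : g ≤ q)
    (hZ : 0 ≤ Z) (hY : 0 ≤ Y) (hn : 0 ≤ n) :
    C₂ * (g / y + Z) * Y * n + C₁ / y * q * Y * n + C₁ / y * q * Y * n + C₁ / y * g * Y * n
        + 2 * C₁ * (Y / y) ^ 2 * n
      ≤ ((C₂ + 3 * C₁) * (q / y + Z) * Y + (C₂ + 3 * C₁) * (Y / y) ^ 2) * n := by
  have h : ((C₂ + 3 * C₁) * (q / y + Z) * Y + (C₂ + 3 * C₁) * (Y / y) ^ 2) * n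
      - (C₂ * (g / y + Z) * Y * n + C₁ / y * q * Y * n + C₁ / y * q * Y * n
        + C₁ / y * g * Y * n + 2 * C₁ * (Y / y) ^ 2 * n)
      = (C₂ * ((q - g) / y) * Y + C₁ * ((q - g) / y) * Y + 3 * C₁ * Z * Y
        + (C₂ + C₁) * (Y / y) ^ 2) * n := by ring
  have h1 : 0 ≤ (q - g) / y := div_nonneg (by linarith) hy.le
  have h2 : 0 ≤ (C₂ * ((q - g) / y) * Y + C₁ * ((q - g) / y) * Y + 3 * C₁ * Z * Y
        + (C₂ + C₁) * (Y / y) ^ 2) * n := by positivity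
  linarith

theorem main : S_GR → S_DIA → S_OPR → S_SYMB → S_OW → S_OD → S_PT := by
  intro hgr hdia hopr hsymb how hod d w θ _ hw hθ hθ1
  obtain ⟨C₁, g₁, hC₁, hg₁, how'⟩ := how d w θ hw hθ hθ1
  obtain ⟨C₂, g₂, hC₂, hg₂, hod'⟩ := hod d w θ hw hθ hθ1
  refine ⟨C₂ + 3 * C₁, min (min g₁ g₂) 1, by linarith, by positivity, ?_⟩
  intro γ hγ hγ0 ζ hre him him2 Y N N' hY hN hN' k
  have hγ1 : γ ≤ g₁ := hγ0.trans ((min_le_left _ _).trans (min_le_left _ _))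
  have hγ2 : γ ≤ g₂ := hγ0.trans ((min_le_left _ _).trans (min_le_right _ _))
  have hγ3 : γ ≤ 1 := hγ0.trans (min_le_right _ _)
  have ow := how' γ hγ hγ1 ζ hre him him2
  have od := hod' γ hγ hγ2 ζ hre him him2 Y
  set y := ζ.im with hy
  have hX : ∀ k, ((xs d γ ζ) k).im ≤ -y := fun k => by
    show (((γ * lap d k : ℝ) : ℂ) - ζ).im ≤ -y
    rw [Complex.sub_im, Complex.ofReal_im, hy]
    linarith
  have hXY : ∀ k, ((xs d γ ζ + Y) k).im ≤ -(y / 2) := fun k => by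
    rw [ContinuousMap.add_apply, Complex.add_im]
    have h1 := hX k
    have h2 : (Y k).im ≤ y / 2 :=
      (Complex.im_le_norm _).trans ((Y.norm_coe_le_norm k).trans hY)
    linarith
  have hy2 : 0 < y / 2 := by positivity
  obtain ⟨G1, G2⟩ := hgr d w y (xs d γ ζ) hw.le him hX
  obtain ⟨K1, K2⟩ := hgr d w (y / 2) (xs d γ ζ + Y) hw.le hy2 hXY
  have wG : WB fun v => gr w (xs d γ ζ) v := wb_gr hgr d w y _ hw.le him hX
  have wK : WB fun v => gr w (xs d γ ζ + Y) v := wb_gr hgr d w (y / 2) _ hw.le hy2 hXY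
  have hge : ∀ (v : (Fin d → ℤ) → ℝ) (x : Fin d → ℤ), ‖ge w γ ζ v x x‖ ≤ 1 / y := fun v x => by
    unfold ge
    have e : ‖dl x‖ = 1 := by
      unfold dl
      rw [lp.norm_single (by norm_num)]
      simp
    calc ‖gr w (xs d γ ζ) v (dl x) x‖ ≤ ‖gr w (xs d γ ζ) v (dl x)‖ :=
          lp.norm_apply_le_norm (by norm_num) _ _
      _ ≤ ‖gr w (xs d γ ζ) v‖ * ‖dl x‖ := ContinuousLinearMap.le_opNorm _ _
      _ ≤ 1 / y := by rw [e, mul_one]; exact (G1 v).2.2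
  have hD : ∀ v : (Fin d → ℤ) → ℝ, (∀ (u : l2 (Fin d → ℤ)) (x : Fin d → ℤ),
      dg w γ ζ v u x = ge w γ ζ v x x * u x) ∧ ‖dg (d := d) w γ ζ v‖ ≤ 1 / y := fun v =>
    dia_bd hdia _ (1 / y) (by positivity) (hge v)
  have wD : WB fun v => dg (d := d) w γ ζ v := by
    refine ⟨⟨1 / y, fun v => (hD v).2⟩, fun u x => ?_⟩
    simp only [(hD _).1]
    exact (G2 (dl x) x).mul_const _
  have wR : WB fun v => gr w (xs d γ ζ) v - dg (d := d) w γ ζ v := wG.sub wD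
  have hadd : ∀ a b : C(UnitAddTorus (Fin d), ℂ), opr (a + b) = opr a + opr b := fun a b =>
    (hopr d a b).2.2.2.1
  have hres : ∀ v : (Fin d → ℤ) → ℝ, gr w (xs d γ ζ + Y) v - gr w (xs d γ ζ) v
      = -(dg w γ ζ v * opr Y * dg w γ ζ v)
        - gr w (xs d γ ζ) v * opr Y * (gr w (xs d γ ζ) v - dg w γ ζ v)
        - (gr w (xs d γ ζ) v - dg w γ ζ v) * opr Y * gr w (xs d γ ζ) v
        + (gr w (xs d γ ζ) v - dg w γ ζ v) * opr Y * (gr w (xs d γ ζ) v - dg w γ ζ v)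
        + gr w (xs d γ ζ) v * (opr Y * gr w (xs d γ ζ + Y) v * opr Y) * gr w (xs d γ ζ) v := by
    intro v
    apply split
    refine resolvent (vcl w v + opr (xs d γ ζ)) _ _ _ (G1 v).1 (G1 v).2.1 ?_ ?_
    · rw [add_assoc, ← hadd]; exact (K1 v).1
    · rw [add_assoc, ← hadd]; exact (K1 v).2.1
  -- numbers
  set s := Real.sqrt (C₁ / y) with hs
  set q := γ ^ (1 / 4 : ℝ) with hq
  have hs0 : 0 ≤ s := Real.sqrt_nonneg _
  have hq0 : 0 ≤ q := Real.rpow_nonneg hγ.le _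
  have hs2 : s ^ 2 = C₁ / y := Real.sq_sqrt (by positivity)
  have hq2 : q ^ 2 = γ ^ (1 / 2 : ℝ) := by
    rw [hq, ← Real.rpow_natCast, ← Real.rpow_mul hγ.le]
    norm_num
  have hq1 : q ≤ 1 := Real.rpow_le_one hγ.le hγ3 (by norm_num)
  have hqq : γ ^ (1 / 2 : ℝ) ≤ q := by rw [← hq2]; nlinarith
  have hYn : ‖opr Y‖ ≤ ‖Y‖ := (hopr d Y Y).2.1
  set Bd : ℝ := (C₂ + 3 * C₁) * (q / y + y ^ (-(15 / 16) : ℝ)) * ‖Y‖
    + (C₂ + 3 * C₁) * (‖Y‖ / y) ^ 2 with hBd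
  have hyr : 0 ≤ y ^ (-(15 / 16) : ℝ) := Real.rpow_nonneg him.le _
  have hBd0 : 0 ≤ Bd := by positivity
  -- form bound
  have form : ∀ u' u : l2 (Fin d → ℤ),
      ‖∫ v, inner ℂ u' ((gr w (xs d γ ζ + Y) v - gr w (xs d γ ζ) v) u)
        ∂(Pn (unif w) (Fin d → ℤ))‖ ≤ Bd * (‖u'‖ * ‖u‖) := by
    intro u' u
    have aG : ∫ v, ‖ContinuousLinearMap.adjoint (gr w (xs d γ ζ) v) u'‖ ^ 2
        ∂(Pn (unif w) (Fin d → ℤ)) ≤ (s * ‖u'‖) ^ 2 := by
      rw [mul_pow, hs2]; exact (ow u').2.1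
    have bG : ∫ v, ‖gr w (xs d γ ζ) v u‖ ^ 2 ∂(Pn (unif w) (Fin d → ℤ)) ≤ (s * ‖u‖) ^ 2 := by
      rw [mul_pow, hs2]; exact (ow u).1
    have e3 : ∀ t : ℝ, (s * q * t) ^ 2 = C₁ * γ ^ (1 / 2 : ℝ) / y * t ^ 2 := fun t => by
      rw [mul_pow, mul_pow, hs2, hq2]; ring
    have aR : ∫ v, ‖ContinuousLinearMap.adjoint (gr w (xs d γ ζ) v - dg w γ ζ v) u'‖ ^ 2
        ∂(Pn (unif w) (Fin d → ℤ)) ≤ (s * q * ‖u'‖) ^ 2 := by
      rw [e3]; exact (ow u').2.2.2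
    have bR : ∫ v, ‖(gr w (xs d γ ζ) v - dg w γ ζ v) u‖ ^ 2
        ∂(Pn (unif w) (Fin d → ℤ)) ≤ (s * q * ‖u‖) ^ 2 := by
      rw [e3]; exact (ow u).2.2.1
    have k1 := key (Pn (unif w) (Fin d → ℤ)) (fun v => gr w (xs d γ ζ) v) (fun _ => opr Y)
      (fun v => gr w (xs d γ ζ) v - dg w γ ζ v) wG wR ‖Y‖ (s * ‖u'‖) (s * q * ‖u‖)
      (norm_nonneg _) (fun _ => hYn) (by positivity) (by positivity) u' u aG bR
    have k2 := key (Pn (unif w) (Fin d → ℤ)) (fun v => gr w (xs d γ ζ) v - dg w γ ζ v)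
      (fun _ => opr Y) (fun v => gr w (xs d γ ζ) v) wR wG ‖Y‖ (s * q * ‖u'‖) (s * ‖u‖)
      (norm_nonneg _) (fun _ => hYn) (by positivity) (by positivity) u' u aR bG
    have k3 := key (Pn (unif w) (Fin d → ℤ)) (fun v => gr w (xs d γ ζ) v - dg w γ ζ v)
      (fun _ => opr Y) (fun v => gr w (xs d γ ζ) v - dg w γ ζ v) wR wR ‖Y‖ (s * q * ‖u'‖)
      (s * q * ‖u‖) (norm_nonneg _) (fun _ => hYn) (by positivity) (by positivity) u' u aR bR
    have k4 := key (Pn (unif w) (Fin d → ℤ)) (fun v => gr w (xs d γ ζ) v)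
      (fun v => opr Y * gr w (xs d γ ζ + Y) v * opr Y) (fun v => gr w (xs d γ ζ) v) wG wG
      (‖Y‖ * (2 / y) * ‖Y‖) (s * ‖u'‖) (s * ‖u‖) (by positivity) (fun v => by
        refine (norm_mul_le _ _).trans (mul_le_mul ((norm_mul_le _ _).trans
          (mul_le_mul hYn ?_ (norm_nonneg _) (norm_nonneg _))) hYn (norm_nonneg _)
          (by positivity))
        refine (K1 v).2.2.trans (le_of_eq ?_)
        field_simp) (by positivity) (by positivity) u' u aG bG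
    have k0 : ‖∫ v, inner ℂ u' ((dg w γ ζ v * opr Y * dg w γ ζ v) u)
        ∂(Pn (unif w) (Fin d → ℤ))‖
        ≤ C₂ * (γ ^ (1 / 2 : ℝ) / y + y ^ (-(15 / 16) : ℝ)) * ‖Y‖ * (‖u'‖ * ‖u‖) := od u u'
    have wY : WB fun _ : (Fin d → ℤ) → ℝ => opr Y := WB.const _
    have i0 := ((wD.mul wY).mul wD).int (Pn (unif w) (Fin d → ℤ)) u' u
    have i1 := ((wG.mul wY).mul wR).int (Pn (unif w) (Fin d → ℤ)) u' u
    have i2 := ((wR.mul wY).mul wG).int (Pn (unif w) (Fin d → ℤ)) u' u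
    have i3 := ((wR.mul wY).mul wR).int (Pn (unif w) (Fin d → ℤ)) u' u
    have i4 := ((wG.mul ((wY.mul wK).mul wY)).mul wG).int (Pn (unif w) (Fin d → ℤ)) u' u
    have e : ∫ v, inner ℂ u' ((gr w (xs d γ ζ + Y) v - gr w (xs d γ ζ) v) u)
        ∂(Pn (unif w) (Fin d → ℤ))
        = -(∫ v, inner ℂ u' ((dg w γ ζ v * opr Y * dg w γ ζ v) u) ∂(Pn (unif w) (Fin d → ℤ)))
          - (∫ v, inner ℂ u' ((gr w (xs d γ ζ) v * opr Y * (gr w (xs d γ ζ) v - dg w γ ζ v)) u)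
              ∂(Pn (unif w) (Fin d → ℤ)))
          - (∫ v, inner ℂ u' (((gr w (xs d γ ζ) v - dg w γ ζ v) * opr Y * gr w (xs d γ ζ) v) u)
              ∂(Pn (unif w) (Fin d → ℤ)))
          + (∫ v, inner ℂ u' (((gr w (xs d γ ζ) v - dg w γ ζ v) * opr Y
              * (gr w (xs d γ ζ) v - dg w γ ζ v)) u) ∂(Pn (unif w) (Fin d → ℤ)))
          + ∫ v, inner ℂ u' ((gr w (xs d γ ζ) v * (opr Y * gr w (xs d γ ζ + Y) v * opr Y)
              * gr w (xs d γ ζ) v) u) ∂(Pn (unif w) (Fin d → ℤ)) := by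
      rw [← int5 _ _ _ _ _ _ i0 i1 i2 i3 i4]
      refine integral_congr_ae (Eventually.of_forall fun v => ?_)
      show inner ℂ u' ((gr w (xs d γ ζ + Y) v - gr w (xs d γ ζ) v) u) = _
      rw [hres v]
      simp only [add_apply, sub_apply,
        neg_apply, inner_add_right, inner_sub_right, inner_neg_right]
    rw [e]
    have t1 : ∀ a b c d e : ℂ, ‖-a - b - c + d + e‖ ≤ ‖a‖ + ‖b‖ + ‖c‖ + ‖d‖ + ‖e‖ := by
      intro a b c d e
      calc ‖-a - b - c + d + e‖ ≤ ‖-a - b - c + d‖ + ‖e‖ := norm_add_le _ _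
        _ ≤ ‖-a - b - c‖ + ‖d‖ + ‖e‖ := by gcongr; exact norm_add_le _ _
        _ ≤ ‖-a - b‖ + ‖c‖ + ‖d‖ + ‖e‖ := by gcongr; exact norm_sub_le _ _
        _ ≤ ‖-a‖ + ‖b‖ + ‖c‖ + ‖d‖ + ‖e‖ := by gcongr; exact norm_sub_le _ _
        _ = _ := by rw [norm_neg]
    refine (t1 _ _ _ _ _).trans ?_
    refine (add_le_add (add_le_add (add_le_add (add_le_add k0 k1) k2) k3) k4).trans ?_
    have z1 : ‖Y‖ * (s * ‖u'‖ * (s * q * ‖u‖)) = C₁ / y * q * ‖Y‖ * (‖u'‖ * ‖u‖) := by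
      rw [← hs2]; ring
    have z2 : ‖Y‖ * (s * q * ‖u'‖ * (s * ‖u‖)) = C₁ / y * q * ‖Y‖ * (‖u'‖ * ‖u‖) := by
      rw [← hs2]; ring
    have z3 : ‖Y‖ * (s * q * ‖u'‖ * (s * q * ‖u‖)) = C₁ / y * q ^ 2 * ‖Y‖ * (‖u'‖ * ‖u‖) := by
      rw [← hs2]; ring
    have z4 : ‖Y‖ * (2 / y) * ‖Y‖ * (s * ‖u'‖ * (s * ‖u‖))
        = 2 * C₁ * (‖Y‖ / y) ^ 2 * (‖u'‖ * ‖u‖) := by
      have : ‖Y‖ * (2 / y) * ‖Y‖ * (s * ‖u'‖ * (s * ‖u‖))
        = ‖Y‖ * (2 / y) * ‖Y‖ * s ^ 2 * (‖u'‖ * ‖u‖) := by ring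
      rw [this, hs2]
      field_simp
    rw [z1, z2, z3, z4, hq2]
    exact num C₁ C₂ y q _ ‖Y‖ _ _ (by linarith) (by linarith) him hqq hyr (norm_nonneg _)
      (by positivity)
  -- the operator
  have hT : ‖opr (N' - N)‖ ≤ Bd := by
    refine ContinuousLinearMap.opNorm_le_bound _ hBd0 fun u => ?_
    refine op_bound _ u Bd hBd0 fun F => ?_
    have hNN : opr N' = opr (N' - N) + opr N := by rw [← hadd, sub_add_cancel]
    have hTx : ∀ x, opr (N' - N) u x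
        = ∫ v, (gr w (xs d γ ζ + Y) v - gr w (xs d γ ζ) v) u x
          ∂(Pn (unif w) (Fin d → ℤ)) := fun x => by
      have j1 : Integrable (fun v => gr w (xs d γ ζ + Y) v u x) (Pn (unif w) (Fin d → ℤ)) := by
        have := wK.int (Pn (unif w) (Fin d → ℤ)) (dl x) u
        simpa only [inner_dl] using this
      have j2 : Integrable (fun v => gr w (xs d γ ζ) v u x) (Pn (unif w) (Fin d → ℤ)) := by
        have := wG.int (Pn (unif w) (Fin d → ℤ)) (dl x) u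
        simpa only [inner_dl] using this
      have e1 : ∫ v, (gr w (xs d γ ζ + Y) v - gr w (xs d γ ζ) v) u x
          ∂(Pn (unif w) (Fin d → ℤ))
          = (∫ v, gr w (xs d γ ζ + Y) v u x ∂(Pn (unif w) (Fin d → ℤ)))
            - ∫ v, gr w (xs d γ ζ) v u x ∂(Pn (unif w) (Fin d → ℤ)) := integral_sub j1 j2
      rw [e1, hN, hN', hNN]
      have : (opr (N' - N) + opr N) u x = opr (N' - N) u x + opr N u x := rfl
      rw [this]
      ring
    have hform := form (∑ x ∈ F, lp.single 2 x (opr (N' - N) u x)) u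
    have e5 : inner ℂ (∑ x ∈ F, lp.single 2 x (opr (N' - N) u x)) (opr (N' - N) u)
        = ∫ v, inner ℂ (∑ x ∈ F, lp.single 2 x (opr (N' - N) u x))
          ((gr w (xs d γ ζ + Y) v - gr w (xs d γ ζ) v) u) ∂(Pn (unif w) (Fin d → ℤ)) := by
      simp only [sum_inner, lp.inner_single_left]
      rw [integral_finsetSum]
      · refine Finset.sum_congr rfl fun x _ => ?_
        conv_lhs => rw [hTx x]
        rw [hTx x]
        have : ∀ (c : ℂ) (f : ((Fin d → ℤ) → ℝ) → ℂ), inner ℂ c (∫ v, f v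
            ∂(Pn (unif w) (Fin d → ℤ))) = ∫ v, inner ℂ c (f v) ∂(Pn (unif w) (Fin d → ℤ)) := by
          intro c f
          simp only [RCLike.inner_apply]
          rw [integral_mul_const]
        exact this _ _
      · intro x _
        have h6 := (wK.sub wG).int (Pn (unif w) (Fin d → ℤ))
          (lp.single 2 x (opr (N' - N) u x)) u
        simpa only [lp.inner_single_left] using h6
    rw [e5]
    exact hform
  calc ‖N' k - N k‖ = ‖(N' - N) k‖ := by rw [ContinuousMap.sub_apply]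
    _ ≤ ‖N' - N‖ := (N' - N).norm_coe_le_norm k
    _ = ‖opr (N' - N)‖ := ((hsymb d).2.1 _).symm
    _ ≤ Bd := hT

end

end Pool.Agent.N664.SD.PT
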